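import Pool.Agent.HFC.Stmts
import Pool.Agent.PST.Fin

/-!
# Squad HFC, row MNL: the theorem for the union over the terminal class `LP`
-/

open scoped BigOperators

noncomputable section

namespace Pool.Agent.HFC.H66

open Pool.Agent.PP Pool.Agent.PSS Pool.Agent.PST Pool.Agent.PST.GU Pool.Agent.PST.GU.H3

theorem mnl : MnlStmt := by
  intro had hyk K ha hs
  have hadm : ∀ ℓ : ℕ, ℓ.Prime → Adm ℓ (KV K LP) :=
    fun ℓ hℓ => adw_ K LP ℓ hℓ (ha ℓ hℓ) (had ℓ hℓ)
  have hkf : StoFor (Kf LP) := stt_ LP had (let__ LP had (ymt_ LP had hyk))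
  have hsto : StoFor (KV K LP) := by
    intro ℓ hℓ M _ hM G _ _ e V γ hL W hW hK c hc
    rcases hK with hK | hK | hK
    · exact hs ℓ M hM G e V γ hL W hW hK c hc
    · exact hkf ℓ M hM G e V γ hL W hW hK c hc
    · exact sto_k4 Fin.stq_ LP ℓ M hM G e V γ hL W hW hK c hc
  exact ⟨hadm, PSS.H11.len_ (KV K LP) hadm hsto⟩

end Pool.Agent.HFC.H66
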