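import Pool.Agent.Helper66_HFC.FIN
import Pool.Agent.Helper66_HFC.MNL
import Pool.Agent.Helper77_HFC.ADL
import Pool.Agent.Helper64_HFC.YKL
import Pool.Agent.Helper52_HFC.HPQ
import Pool.Agent.Helper29_HFC.ADH
import Pool.Agent.Helper29_HFC.CLA
import Pool.Agent.Helper17_HFC.LEH
import Pool.Agent.Helper81_HFC.CLB
import Pool.Agent.Helper32_HFC.CLH

/-!
# Squad HFC: the final theorem, without hypotheses
-/

noncomputable section

namespace Pool.Agent.HFC.H66

theorem fin_ : FinStmt :=
  fin H77.adl H64.ykl mnl H52.hpq H29.adh H17.leh H29.cla H81.clb H32.clh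

end Pool.Agent.HFC.H66
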