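import Pool.Agent.Results.MP_6a3f1a_al.AbelianDefect

/-!
# The examples in the docstring of the hand-in `AbelianDefect`

Not a hand-in: the condition `Layer` in the four examples, for any set `T` (in the hand-in `T` is the
inertial group of a root, which normalises `D`).
-/

open scoped BigOperators

noncomputable section

namespace Pool.Agent.HFC.H66

open Pool.Agent.Results.MP_6a3f1a_al.AbelianDefect

/-- abelian inertial quotient: the commutators of elements of `T` centralise `D` -/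
theorem layer_abelian (ℓ : ℕ) {H : Type} [Group H] (T : Set H) (D : Subgroup H)
    (hT : ∀ t ∈ T, ∀ x ∈ D, t * x * t⁻¹ ∈ D)
    (hc : ∀ s ∈ T, ∀ t ∈ T, ∀ x ∈ D, s * t * s⁻¹ * t⁻¹ * x = x * (s * t * s⁻¹ * t⁻¹)) :
    Layer ℓ T D ⊥ D ⊥ := by
  refine ⟨bot_inf_eq _, bot_sup_eq _, ?_, hT, bot_le, ?_, ?_, Or.inl (Or.inl rfl)⟩
  · intro t _ c hc
    rw [Subgroup.mem_bot.1 hc, mul_one, one_mul]
  · intro t _ w hw
    rw [Subgroup.mem_bot.1 hw, mul_one, mul_inv_cancel]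
    exact one_mem _
  · intro s hs t ht x hx
    rw [Subgroup.mem_bot, hc s hs t ht x hx, mul_inv_cancel_right, mul_inv_cancel]

/-- `D = C × F`, `T` acts freely modulo its kernel on `F` -/
theorem layer_free (ℓ : ℕ) {H : Type} [Group H] (T : Set H) (D C F : Subgroup H)
    (h1 : C ⊓ F = ⊥) (h2 : C ⊔ F = D) (h3 : ∀ t ∈ T, ∀ c ∈ C, t * c = c * t)
    (hT : ∀ t ∈ T, ∀ x ∈ F, t * x * t⁻¹ ∈ F)
    (hf : ∀ t ∈ T, ∀ u ∈ F, u ≠ 1 → t * u = u * t → ∀ x ∈ F, t * x = x * t)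
    (hm : ∀ s ∈ T, ∀ t ∈ T, s * t * s⁻¹ * t⁻¹ ∈ T) :
    Layer ℓ T D C F F := by
  refine ⟨h1, h2, h3, hT, le_rfl, hT, ?_, Or.inl ?_⟩
  · intro s hs t ht x hx
    exact F.mul_mem (hT _ (hm s hs t ht) x hx) (F.inv_mem hx)
  · by_cases h0 : F = ⊥
    · exact Or.inl h0
    · exact Or.inr ⟨F, h0, le_rfl, hT, hf⟩

theorem layer_small (ℓ : ℕ) {H : Type} [Group H] (T : Set H) (D C F : Subgroup H)
    (h1 : C ⊓ F = ⊥) (h2 : C ⊔ F = D) (h3 : ∀ t ∈ T, ∀ c ∈ C, t * c = c * t)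
    (hT : ∀ t ∈ T, ∀ x ∈ F, t * x * t⁻¹ ∈ F) (hm : ∀ s ∈ T, ∀ t ∈ T, s * t * s⁻¹ * t⁻¹ ∈ T)
    (hs : Small ℓ T F) : Layer ℓ T D C F F := by
  refine ⟨h1, h2, h3, hT, le_rfl, hT, ?_, Or.inr ⟨hs, 0, Fin.elim0, ?_, ?_, fun i => i.elim0,
    fun i => i.elim0, fun i => i.elim0, fun i => i.elim0⟩⟩
  · intro s hs t ht x hx
    exact F.mul_mem (hT _ (hm s hs t ht) x hx) (F.inv_mem hx)
  · simp
  · simp

/-- `D = C × F`, `F` is generated by two elements -/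
theorem layer_two (ℓ : ℕ) {H : Type} [Group H] (T : Set H) (D C F : Subgroup H)
    (h1 : C ⊓ F = ⊥) (h2 : C ⊔ F = D) (h3 : ∀ t ∈ T, ∀ c ∈ C, t * c = c * t)
    (hT : ∀ t ∈ T, ∀ x ∈ F, t * x * t⁻¹ ∈ F) (hm : ∀ s ∈ T, ∀ t ∈ T, s * t * s⁻¹ * t⁻¹ ∈ T)
    (x y : H) (hxy : F = Subgroup.closure {x, y}) : Layer ℓ T D C F F :=
  layer_small ℓ T D C F h1 h2 h3 hT hm (Or.inl ⟨x, y, hxy⟩)

/-- `T` is a group with `3 |T : T ∩ C(D)| ≤ ℓ`, `5 ≤ ℓ` -/
theorem layer_index (ℓ : ℕ) {H : Type} [Group H] [Finite H] (T D : Subgroup H) (h5 : 5 ≤ ℓ)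
    (hT : ∀ t ∈ T, ∀ x ∈ D, t * x * t⁻¹ ∈ D)
    (hi : 3 * (Subgroup.centralizer (D : Set H)).relIndex T ≤ ℓ) :
    Layer ℓ (T : Set H) D ⊥ D D := by
  refine layer_small ℓ (T : Set H) D ⊥ D (bot_inf_eq _) (bot_sup_eq _) ?_ hT ?_
    (Or.inr ⟨h5, ?_⟩)
  · intro t _ c hc
    rw [Subgroup.mem_bot.1 hc, mul_one, one_mul]
  · intro s hs t ht
    exact T.mul_mem (T.mul_mem (T.mul_mem hs ht) (T.inv_mem hs)) (T.inv_mem ht)
  · refine le_trans (Nat.mul_le_mul_left 3 ?_) hi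
    let N : Subgroup T := (Subgroup.centralizer (D : Set H)).subgroupOf T
    have hq : ∀ a b : T, (QuotientGroup.mk a : T ⧸ N) = QuotientGroup.mk b ↔ ∀ w : D,
        (a : H) * w * (a : H)⁻¹ = b * w * (b : H)⁻¹ := by
      intro a b
      rw [QuotientGroup.eq, Subgroup.mem_subgroupOf, Subgroup.mem_centralizer_iff]
      constructor
      · intro h w
        have h4 := h w w.2
        rw [Subgroup.coe_mul, Subgroup.coe_inv] at h4
        calc (a : H) * w * (a : H)⁻¹ = a * (w * ((a : H)⁻¹ * b)) * (b : H)⁻¹ := by group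
          _ = a * ((a : H)⁻¹ * b * w) * (b : H)⁻¹ := by rw [h4]
          _ = b * w * (b : H)⁻¹ := by group
      · intro h w hw
        have h4 := h ⟨w, hw⟩
        rw [Subgroup.coe_mul, Subgroup.coe_inv]
        calc w * ((a : H)⁻¹ * b) = (a : H)⁻¹ * (a * w * (a : H)⁻¹) * b := by group
          _ = (a : H)⁻¹ * (b * w * (b : H)⁻¹) * b := by rw [h4]
          _ = (a : H)⁻¹ * b * w := by group
    have hfin : Finite (T ⧸ N) := inferInstance
    let f : T ⧸ N → (D → H) := fun q w => (q.out : T) * (w : H) * ((q.out : T) : H)⁻¹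
    have hsub : {g : D → H | ∃ t ∈ (T : Set H), ∀ w : D, g w = t * w * t⁻¹} ⊆ Set.range f := by
      rintro g ⟨t, ht, hg⟩
      refine ⟨(QuotientGroup.mk (⟨t, ht⟩ : T) : T ⧸ N), ?_⟩
      funext w
      rw [hg w]
      exact (hq _ _).1 (QuotientGroup.out_eq' _) w
    calc _ ≤ (Set.range f).ncard := Set.ncard_le_ncard hsub (Set.finite_range f)
      _ ≤ Nat.card (T ⧸ N) := by
        rw [← Set.image_univ, ← Set.ncard_univ]
        exact Set.ncard_image_le Set.finite_univ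
      _ = (Subgroup.centralizer (D : Set H)).relIndex T := rfl

end Pool.Agent.HFC.H66
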