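import Pool.Agent.HFC.Stmts
import Pool.Agent.PST.Fin
import Pool.Agent.Helper66_WAT.Asm

/-!
# Squad HFC: the final theorem, from the rows
-/

open scoped BigOperators

noncomputable section

namespace Pool.Agent.HFC.H66

open Pool.Agent.Helper51_AWC Pool.Agent.Helper79_WRA Pool.Agent.PP Pool.Agent.PP.KF
open Pool.Agent.PP.K9 Pool.Agent.PP.K9.H97 Pool.Agent.PP.H75 Pool.Agent.PP.T3 Pool.Agent.PP.T2
open Pool.Agent.PFD (Ei)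
open Pool.Agent.PSS Pool.Agent.PST Pool.Agent.PST.GU

attribute [local instance] Ideal.Quotient.field

/-- the final theorem of the squad -/
def FinStmt : Prop := ∀ (ℓ : ℕ) [Fact ℓ.Prime] (M : Ideal (integralClosure ℤ ℂ)) [M.IsMaximal],
  (ℓ : integralClosure ℤ ℂ) ∈ M → ∀ (G : Type) [Group G] [Finite G],
  opCore ℓ G ≤ Subgroup.center G → ∀ χ ∈ Irr G, ∀ (H : Type) [Group H] (p : G →* H),
  Function.Surjective p → p.ker ≤ opCore ℓ G → ∀ ψ ∈ Irr H,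
  (∀ g : G, Cong M (omega (MonoidHom.id G) (fun x => ψ (p x)) g)
    (omega (MonoidHom.id G) χ g)) →
  ∀ D : Subgroup H, ML.IsDef ℓ M ψ D → D ≠ (opCore ℓ G).map p →
  (∀ x ∈ D, ∀ y ∈ D, x * y = y * x) →
  ∀ th ∈ IrrBlock M (Subgroup.centralizer (D : Set H)).subtype ψ,
  ∀ C D₀ : Subgroup H, C ⊓ D₀ = ⊥ → C ⊔ D₀ = D → (∀ t ∈ Iner M D th, ∀ c ∈ C, t * c = c * t) →
  (∀ t ∈ Iner M D th, ∀ d ∈ D₀, t * d * t⁻¹ ∈ D₀) →
  ((∃ W U : Subgroup H, ClP ℓ (Iner M D th) D₀ W U) ∨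
    ∃ (s : ℕ) (Y : Fin s → Subgroup H) (U : Subgroup H), ClW ℓ (Iner M D th) D₀ s Y U) →
  altSum ℓ M χ = 0

theorem fin (adl : AdlStmt) (ykl : YklStmt) (mnl : MnlStmt) (hpq : HpqStmt) (adh : AdhStmt)
    (leh : LehStmt) (cla : ClaStmt) (clb : ClbStmt) (clh : ClhStmt) : FinStmt := by
  have had : ∀ ℓ : ℕ, ℓ.Prime → AdT ℓ LP := adl GU.H3.adr_
  have hyk : YkFor LP := ykl GU.H3.ykr_ T3.t3a_
  obtain ⟨ha, hl⟩ := mnl had hyk KP GS.adp_ (GS.stoKP_of Fin.stq_)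
  have hm : MnnFor (Kh (KV KP LP)) :=
    PSS.H66.mnn_ (Kh (KV KP LP)) (adh hpq GU.H68.rsq (KV KP LP) ha)
      (leh TV.wat_ T3.loc_ T3.lsb_ H33.qrx PSS.H66.qrq_ PSS.H86.qln H63.frt H24.ltx hpq
        GU.H68.rsq (KV KP LP) ha hl)
  intro ℓ hℓ M iM hM G iG iFG hc χ hχ H iH p hp hpk ψ hψ hψχ D hD hDO hab θ hθ C D₀ h1 h2 h3 h4 hC
  have hfH : Finite H := Finite.of_surjective p hp
  refine GU.H3.fnk_ (Kh (KV KP LP)) hm ℓ M hM G hc χ hχ H p hp hpk ψ hψ hψχ D hD hDO hab θ hθ ?_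
  intro e γ hL hTg hne
  rw [← hTg] at h3 h4 hC
  exact clh cla clb GS.msu_ PFD.edf_ GU.H3.sry PFD.H6.lke K9.H34.inx ha ℓ M hM H e D γ hL hne C D₀
    h1 h2 h3 h4 hC

end Pool.Agent.HFC.H66
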